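import Mathlib

set_option autoImplicit false
set_option maxRecDepth 100000

/-!
A connected graph on 12 vertices whose detour position number exceeds `n - D + 1`.

The graph: a 6-cycle `6 - 10 - 8 - 9 - 7 - 11 - 6`; the three long diagonals `6 9`, `10 7`, `8 11` are
subdivided by the vertices `0`, `1`, `2`; the alternate rim edges `10 8`, `6 11`, `7 9` get the further
common neighbours `3`, `4`, `5`.
-/

namespace Pool.Agent.Results.MP_da5e02_co.DetourBoundFails

open SimpleGraph

/-- `p` is a detour: a path which is longest among all paths with the same two end vertices. -/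
def IsDetour {V : Type} (G : SimpleGraph V) {u v : V} (p : G.Walk u v) : Prop :=
  p.IsPath ∧ ∀ q : G.Walk u v, q.IsPath → q.length ≤ p.length

/-- `S` is a detour position set: for distinct `u, v ∈ S` no `u,v`-detour contains a vertex of
`S \ {u, v}`. -/
def IsDetourPositionSet {V : Type} (G : SimpleGraph V) (S : Finset V) : Prop :=
  ∀ u ∈ S, ∀ v ∈ S, u ≠ v → ∀ p : G.Walk u v, IsDetour G p → ∀ w ∈ S, w ∈ p.support →
    w = u ∨ w = v

/-- The detour position number: the largest size of a detour position set. -/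
noncomputable def detourPositionNumber {V : Type} (G : SimpleGraph V) : ℕ :=
  sSup {k : ℕ | ∃ S : Finset V, IsDetourPositionSet G S ∧ S.card = k}

/-- The detour diameter: the largest length of a path. -/
noncomputable def detourDiameter {V : Type} (G : SimpleGraph V) : ℕ :=
  sSup {L : ℕ | ∃ (u v : V) (p : G.Walk u v), p.IsPath ∧ p.length = L}

/-- neighbour lists of the example -/
def nbr (v : Fin 12) : List (Fin 12) :=
  match v with
  | 0 => [6, 9]
  | 1 => [7, 10]
  | 2 => [8, 11]
  | 3 => [8, 10]
  | 4 => [6, 11]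
  | 5 => [7, 9]
  | 6 => [0, 4, 10, 11]
  | 7 => [1, 5, 9, 11]
  | 8 => [2, 3, 9, 10]
  | 9 => [0, 5, 7, 8]
  | 10 => [1, 3, 6, 8]
  | 11 => [2, 4, 6, 7]

theorem nbr_symm : ∀ a b : Fin 12, b ∈ nbr a → a ∈ nbr b := by decide

theorem nbr_irrefl : ∀ a : Fin 12, a ∉ nbr a := by decide

/-- the example -/
def exG : SimpleGraph (Fin 12) where
  Adj a b := b ∈ nbr a
  symm := ⟨fun a b h => nbr_symm a b h⟩
  loopless := ⟨fun a h => nbr_irrefl a h⟩

/-- Depth first search: no path of length `L` from `cur` to `tgt`, avoiding the visited list `vis`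
after `cur`, has `w` among the visited vertices at the end. -/
def noPath : ℕ → List (Fin 12) → Fin 12 → Fin 12 → Fin 12 → Bool
  | 0, vis, cur, tgt, w => !(cur == tgt && vis.elem w)
  | L + 1, vis, cur, tgt, w =>
      (nbr cur).all (fun x => vis.elem x || noPath L (x :: vis) x tgt w)

theorem noPath_spec : ∀ (L : ℕ) (vis : List (Fin 12)) (cur tgt w : Fin 12),
    noPath L vis cur tgt w = true → ∀ p : exG.Walk cur tgt, p.IsPath → p.length = L →
      (∀ x ∈ p.support.tail, x ∉ vis) → w ∈ p.support.tail ++ vis → False := by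
  intro L
  induction L with
  | zero =>
    intro vis cur tgt w h p hp hL _ hw
    cases p with
    | nil =>
      simp only [Walk.support_nil, List.tail_cons, List.nil_append] at hw
      simp [noPath, hw] at h
    | cons a q => simp at hL
  | succ L ih =>
    intro vis cur tgt w h p hp hL hd hw
    cases p with
    | nil => simp at hL
    | @cons _ x _ a q =>
      simp only [noPath, List.all_eq_true] at h
      have hx := h x a
      rw [Walk.cons_isPath_iff] at hp
      simp only [Walk.length_cons, Nat.add_right_cancel_iff] at hL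
      simp only [Walk.support_cons, List.tail_cons] at hd hw
      have hxv : x ∉ vis := hd x q.start_mem_support
      have h2 : noPath L (x :: vis) x tgt w = true := by
        simp only [Bool.or_eq_true] at hx
        rcases hx with hx | hx
        · exact absurd (by simpa using hx) hxv
        · exact hx
      have hnd : (x :: q.support.tail).Nodup := by
        have := hp.1.support_nodup
        rwa [← Walk.cons_tail_support] at this
      refine ih (x :: vis) x tgt w h2 q hp.1 hL ?_ ?_
      · intro y hy hy2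
        rcases List.mem_cons.1 hy2 with h3 | h3
        · subst h3
          exact (List.nodup_cons.1 hnd).1 hy
        · exact hd y (List.mem_of_mem_tail hy) h3
      · rw [← Walk.cons_tail_support] at hw
        simp only [List.cons_append, List.mem_cons, List.mem_append] at hw ⊢
        tauto

/-- the finite check -/
theorem check : ∀ u ∈ ([0, 1, 2] : List (Fin 12)), ∀ v ∈ ([0, 1, 2] : List (Fin 12)),
    ∀ w ∈ ([0, 1, 2] : List (Fin 12)), u ≠ v → w ≠ u → w ≠ v →
      noPath 10 [u] u v w = true ∧ noPath 11 [u] u v w = true := by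
  decide

theorem mk_adj (a b : Fin 12) (h : b ∈ nbr a) : exG.Adj a b := h

/-- a path of length `10` from `0` to `1` -/
def p01 : exG.Walk 0 1 :=
  .cons (v := 6) (mk_adj _ _ (by decide)) <| .cons (v := 4) (mk_adj _ _ (by decide)) <|
  .cons (v := 11) (mk_adj _ _ (by decide)) <| .cons (v := 7) (mk_adj _ _ (by decide)) <|
  .cons (v := 5) (mk_adj _ _ (by decide)) <| .cons (v := 9) (mk_adj _ _ (by decide)) <|
  .cons (v := 8) (mk_adj _ _ (by decide)) <| .cons (v := 3) (mk_adj _ _ (by decide)) <|
  .cons (v := 10) (mk_adj _ _ (by decide)) <| .cons (v := 1) (mk_adj _ _ (by decide)) .nil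

/-- a path of length `10` from `0` to `2` -/
def p02 : exG.Walk 0 2 :=
  .cons (v := 9) (mk_adj _ _ (by decide)) <| .cons (v := 5) (mk_adj _ _ (by decide)) <|
  .cons (v := 7) (mk_adj _ _ (by decide)) <| .cons (v := 11) (mk_adj _ _ (by decide)) <|
  .cons (v := 4) (mk_adj _ _ (by decide)) <| .cons (v := 6) (mk_adj _ _ (by decide)) <|
  .cons (v := 10) (mk_adj _ _ (by decide)) <| .cons (v := 3) (mk_adj _ _ (by decide)) <|
  .cons (v := 8) (mk_adj _ _ (by decide)) <| .cons (v := 2) (mk_adj _ _ (by decide)) .nil

/-- a path of length `10` from `1` to `2` -/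
def p12 : exG.Walk 1 2 :=
  .cons (v := 7) (mk_adj _ _ (by decide)) <| .cons (v := 5) (mk_adj _ _ (by decide)) <|
  .cons (v := 9) (mk_adj _ _ (by decide)) <| .cons (v := 8) (mk_adj _ _ (by decide)) <|
  .cons (v := 3) (mk_adj _ _ (by decide)) <| .cons (v := 10) (mk_adj _ _ (by decide)) <|
  .cons (v := 6) (mk_adj _ _ (by decide)) <| .cons (v := 4) (mk_adj _ _ (by decide)) <|
  .cons (v := 11) (mk_adj _ _ (by decide)) <| .cons (v := 2) (mk_adj _ _ (by decide)) .nil

/-- a Hamiltonian path, from `0` to `9` -/
def pHam : exG.Walk 0 9 :=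
  .cons (v := 6) (mk_adj _ _ (by decide)) <| .cons (v := 4) (mk_adj _ _ (by decide)) <|
  .cons (v := 11) (mk_adj _ _ (by decide)) <| .cons (v := 2) (mk_adj _ _ (by decide)) <|
  .cons (v := 8) (mk_adj _ _ (by decide)) <| .cons (v := 3) (mk_adj _ _ (by decide)) <|
  .cons (v := 10) (mk_adj _ _ (by decide)) <| .cons (v := 1) (mk_adj _ _ (by decide)) <|
  .cons (v := 7) (mk_adj _ _ (by decide)) <| .cons (v := 5) (mk_adj _ _ (by decide)) <|
  .cons (v := 9) (mk_adj _ _ (by decide)) .nil

theorem isPath_of_nodup {u v : Fin 12} (p : exG.Walk u v) (h : p.support.Nodup) : p.IsPath :=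
  (Walk.isPath_def p).2 h

theorem p01_path : p01.IsPath ∧ p01.length = 10 :=
  ⟨isPath_of_nodup _ (by simp only [p01, Walk.support_cons, Walk.support_nil]; decide), rfl⟩

theorem p02_path : p02.IsPath ∧ p02.length = 10 :=
  ⟨isPath_of_nodup _ (by simp only [p02, Walk.support_cons, Walk.support_nil]; decide), rfl⟩

theorem p12_path : p12.IsPath ∧ p12.length = 10 :=
  ⟨isPath_of_nodup _ (by simp only [p12, Walk.support_cons, Walk.support_nil]; decide), rfl⟩

theorem pHam_path : pHam.IsPath ∧ pHam.length = 11 :=
  ⟨isPath_of_nodup _ (by simp only [pHam, Walk.support_cons, Walk.support_nil]; decide), rfl⟩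

theorem pHam_mem : ∀ v : Fin 12, v ∈ pHam.support := by
  simp only [pHam, Walk.support_cons, Walk.support_nil]; decide

theorem exG_connected : exG.Connected := by
  have h0 : ∀ v, exG.Reachable 0 v := fun v => ⟨pHam.takeUntil v (pHam_mem v)⟩
  have : Nonempty (Fin 12) := ⟨0⟩
  exact ⟨fun u v => (h0 u).symm.trans (h0 v)⟩

theorem exists_path (u v : Fin 12) (hu : u ∈ ([0, 1, 2] : List (Fin 12)))
    (hv : v ∈ ([0, 1, 2] : List (Fin 12))) (huv : u ≠ v) :
    ∃ q : exG.Walk u v, q.IsPath ∧ q.length = 10 := by
  have key : ∀ a b : Fin 12, (∃ q : exG.Walk a b, q.IsPath ∧ q.length = 10) →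
      ∃ q : exG.Walk b a, q.IsPath ∧ q.length = 10 := by
    rintro a b ⟨q, h1, h2⟩
    exact ⟨q.reverse, h1.reverse, by simpa using h2⟩
  simp only [List.mem_cons, List.not_mem_nil, or_false] at hu hv
  rcases hu with rfl | rfl | rfl <;> rcases hv with rfl | rfl | rfl
  · exact absurd rfl huv
  · exact ⟨p01, p01_path⟩
  · exact ⟨p02, p02_path⟩
  · exact key _ _ ⟨p01, p01_path⟩
  · exact absurd rfl huv
  · exact ⟨p12, p12_path⟩
  · exact key _ _ ⟨p02, p02_path⟩
  · exact key _ _ ⟨p12, p12_path⟩
  · exact absurd rfl huv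

theorem isDetourPositionSet_ex : IsDetourPositionSet exG {0, 1, 2} := by
  intro u hu v hv huv p hp w hw hwp
  have hu' : u ∈ ([0, 1, 2] : List (Fin 12)) := by simpa using hu
  have hv' : v ∈ ([0, 1, 2] : List (Fin 12)) := by simpa using hv
  have hw' : w ∈ ([0, 1, 2] : List (Fin 12)) := by simpa using hw
  by_contra hne
  rw [not_or] at hne
  obtain ⟨h10, h11⟩ := check u hu' v hv' w hw' huv hne.1 hne.2
  obtain ⟨q, hq1, hq2⟩ := exists_path u v hu' hv' huv
  have hge : 10 ≤ p.length := hq2 ▸ hp.2 q hq1
  have hlt : p.length < 12 := by simpa using hp.1.length_lt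
  have hnd : (u :: p.support.tail).Nodup := by
    have := hp.1.support_nodup
    rwa [← Walk.cons_tail_support] at this
  have hd : ∀ x ∈ p.support.tail, x ∉ [u] := by
    intro x hx hx2
    rw [List.mem_singleton] at hx2
    subst hx2
    exact (List.nodup_cons.1 hnd).1 hx
  have hmem : w ∈ p.support.tail ++ [u] := by
    rw [← Walk.cons_tail_support] at hwp
    simp only [List.mem_cons, List.mem_append, List.not_mem_nil, or_false] at hwp ⊢
    tauto
  have : p.length = 10 ∨ p.length = 11 := by omega
  rcases this with h | h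
  · exact noPath_spec 10 [u] u v w h10 p hp.1 h hd hmem
  · exact noPath_spec 11 [u] u v w h11 p hp.1 h hd hmem

theorem detourDiameter_ex : detourDiameter exG = 11 := by
  refine le_antisymm (csSup_le ⟨11, 0, 9, pHam, pHam_path⟩ ?_)
    (le_csSup ⟨11, ?_⟩ ⟨0, 9, pHam, pHam_path⟩)
  · rintro L ⟨u, v, p, hp, rfl⟩
    have : p.length < 12 := by simpa using hp.length_lt
    omega
  · rintro L ⟨u, v, p, hp, rfl⟩
    have : p.length < 12 := by simpa using hp.length_lt
    omega

theorem three_le_detourPositionNumber : 3 ≤ detourPositionNumber exG := by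
  refine le_csSup ⟨12, ?_⟩ ⟨{0, 1, 2}, isDetourPositionSet_ex, by decide⟩
  rintro k ⟨S, _, rfl⟩
  simpa using Finset.card_le_univ S

/-- There is a connected graph `G` on `12` vertices with detour diameter `11` (so that
`n - D + 1 = 2`) which has detour position number at least `3`. -/
theorem result : ∃ G : SimpleGraph (Fin 12), G.Connected ∧ detourDiameter G = 11 ∧
    3 ≤ detourPositionNumber G ∧ 12 - detourDiameter G + 1 < detourPositionNumber G := by
  refine ⟨exG, exG_connected, detourDiameter_ex, three_le_detourPositionNumber, ?_⟩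
  rw [detourDiameter_ex]
  have := three_le_detourPositionNumber
  omega

end Pool.Agent.Results.MP_da5e02_co.DetourBoundFails
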